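import Mathlib
import Pool.Agent.Helper17.RS.Sheet

set_option autoImplicit false

namespace Pool.Helper17.R612

open Pool.Helper17.RS (NR)

/-- A constant costs less than `H ^ ε`. -/
theorem eps_of_c (f : ℝ → ℝ) (α : ℝ)
    (h : ∃ c : ℝ, 0 < c ∧ ∃ H₀ : ℝ, ∀ H : ℝ, H₀ ≤ H → c * H ^ α ≤ f H) :
    ∀ ε : ℝ, 0 < ε → ∃ H₀ : ℝ, ∀ H : ℝ, H₀ ≤ H → H ^ (α - ε) ≤ f H := by
  intro ε hε
  obtain ⟨c, hc, H₀, hH⟩ := h
  refine ⟨max H₀ (max 1 ((1 / c) ^ (1 / ε))), fun H hH' => ?_⟩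
  have e1 : H₀ ≤ H := le_trans (le_max_left _ _) hH'
  have e2 : (1 : ℝ) ≤ H := le_trans (le_trans (le_max_left _ _) (le_max_right _ _)) hH'
  have e3 : (1 / c) ^ (1 / ε) ≤ H :=
    le_trans (le_trans (le_max_right _ _) (le_max_right _ _)) hH'
  have hpos : (0 : ℝ) < H := by linarith
  have e4 : 1 / c ≤ H ^ ε := by
    have := Real.rpow_le_rpow (by positivity) e3 hε.le
    rwa [← Real.rpow_mul (by positivity), one_div_mul_cancel hε.ne', Real.rpow_one] at this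
  refine le_trans ?_ (hH H e1)
  have e5 : H ^ α = H ^ (α - ε) * H ^ ε := by
    rw [← Real.rpow_add hpos]
    congr 1
    ring
  rw [e5]
  have e6 : (1 : ℝ) ≤ c * H ^ ε := by
    have := mul_le_mul_of_nonneg_left e4 hc.le
    rwa [mul_one_div_cancel hc.ne'] at this
  have e7 : (0 : ℝ) ≤ H ^ (α - ε) := by positivity
  nlinarith

theorem NR_anti {r s : ℕ} (h : r ≤ s) (H : ℝ) : NR s H ≤ NR r H := by
  unfold NR
  refine Set.ncard_le_ncard ?_ ?_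
  · rintro p ⟨h1, h2, h3, h4⟩
    exact ⟨h1, h2, h3, (by exact_mod_cast h : (r : Cardinal) ≤ s).trans h4⟩
  · refine ((Set.finite_Icc (-⌊H⌋) ⌊H⌋).prod (Set.finite_Icc (-⌊H⌋) ⌊H⌋)).subset ?_
    rintro p ⟨-, -, h3, -⟩
    have h4 : max (4 * |p.1| ^ 3) (27 * p.2 ^ 2) ≤ ⌊H⌋ := Int.le_floor.2 h3
    have h5 : 4 * |p.1| ^ 3 ≤ ⌊H⌋ := (le_max_left _ _).trans h4
    have h6 : 27 * p.2 ^ 2 ≤ ⌊H⌋ := (le_max_right _ _).trans h4
    have h7 : |p.1| ≤ ⌊H⌋ := by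
      refine le_trans ?_ h5
      rcases eq_or_lt_of_le (abs_nonneg p.1) with h0 | h0
      · rw [← h0]
        norm_num
      · have h8 : (1 : ℤ) ≤ |p.1| := h0
        nlinarith [sq_nonneg (|p.1| - 1), mul_pos h0 h0]
    have h8 : |p.2| ≤ ⌊H⌋ := by
      refine le_trans ?_ h6
      rw [← sq_abs p.2]
      rcases eq_or_lt_of_le (abs_nonneg p.2) with h0 | h0
      · rw [← h0]
        norm_num
      · have h9 : (1 : ℤ) ≤ |p.2| := h0
        nlinarith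
    exact ⟨abs_le.1 h7, abs_le.1 h8⟩

end Pool.Helper17.R612
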